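import Pool.Agent.Lib.MP_39c2b7_co.Interfaces

/-!
Module FRAME of project SA (MP_39c2b7_co): affine maps of the plane over the field with three
elements.
-/

set_option autoImplicit false

namespace StrongArb.H7

open StrongArb

/-- linear map with columns `u`, `v` -/
def lin (u v x : Pt) : Pt := (x.1 * u.1 + x.2 * v.1, x.1 * u.2 + x.2 * v.2)

theorem form_add (s : Fin 4) (x y : Pt) : form s (x + y) = form s x + form s y := by
  fin_cases s <;> simp [form] <;> ring

theorem form_sub (s : Fin 4) (x y : Pt) : form s (x - y) = form s x - form s y := by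
  fin_cases s <;> simp [form] <;> ring

theorem form_zero_inj : ∀ s t : Fin 4, (∀ z : Pt, form s z = 0 ↔ form t z = 0) → s = t := by
  decide

theorem det_ne : ∀ u v : Pt, (∀ s, ¬ (form s u = 0 ∧ form s v = 0)) →
    u.1 * v.2 - u.2 * v.1 ≠ 0 := by
  decide

theorem lin_ker : ∀ u v : Pt, u.1 * v.2 - u.2 * v.1 ≠ 0 → ∀ z : Pt, lin u v z = 0 → z = 0 := by
  decide +kernel

theorem lin_form : ∀ u v : Pt, u.1 * v.2 - u.2 * v.1 ≠ 0 → ∀ s : Fin 4, ∃ t : Fin 4,
    ∀ z : Pt, form s (lin u v z) = 0 ↔ form t z = 0 := by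
  decide +kernel

theorem exists_noncol : ∀ a b : Pt, a ≠ b → ∃ c : Pt, a ≠ c ∧ b ≠ c ∧
    ∀ s, ¬ (form s a = form s b ∧ form s a = form s c) := by
  decide +kernel

theorem lin_sub (u v x y : Pt) : lin u v (x - y) = lin u v x - lin u v y := by
  ext <;> simp [lin] <;> ring

/-- the permutation of the slopes belongs to a structure which can be composed and inverted -/
def Aff (g : Pt ≃ Pt) : Prop :=
  ∃ π : Equiv.Perm (Fin 4), ∀ s x y, form s (g x) = form s (g y) ↔ form (π s) x = form (π s) y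

theorem Aff.symm {g : Pt ≃ Pt} (h : Aff g) : Aff g.symm := by
  obtain ⟨π, hπ⟩ := h
  refine ⟨π.symm, fun s x y => ?_⟩
  have := hπ (π.symm s) (g.symm x) (g.symm y)
  rw [g.apply_symm_apply, g.apply_symm_apply, π.apply_symm_apply] at this
  exact this.symm

theorem Aff.trans {g h : Pt ≃ Pt} (hg : Aff g) (hh : Aff h) : Aff (g.trans h) := by
  obtain ⟨π, hπ⟩ := hg
  obtain ⟨σ, hσ⟩ := hh
  refine ⟨σ.trans π, fun s x y => ?_⟩
  rw [Equiv.trans_apply, Equiv.trans_apply, hσ, hπ]
  rfl

theorem exists_aff (a b c : Pt) (h : ∀ s, ¬ (form s a = form s b ∧ form s a = form s c)) :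
    ∃ g : Pt ≃ Pt, g (0, 0) = a ∧ g (1, 0) = b ∧ g (0, 1) = c ∧ Aff g := by
  set u : Pt := b - a with hu
  set v : Pt := c - a with hv
  have hdet : u.1 * v.2 - u.2 * v.1 ≠ 0 := by
    apply det_ne
    intro s hs
    apply h s
    rw [hu, hv, form_sub, form_sub, sub_eq_zero, sub_eq_zero] at hs
    exact ⟨hs.1.symm, hs.2.symm⟩
  have hinj : Function.Injective (fun x => a + lin u v x) := by
    intro x y hxy
    have h1 : lin u v x = lin u v y := add_left_cancel hxy
    have h2 : lin u v (x - y) = 0 := by rw [lin_sub, h1, sub_self]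
    exact sub_eq_zero.1 (lin_ker u v hdet _ h2)
  have hbij : Function.Bijective (fun x => a + lin u v x) := Finite.injective_iff_bijective.1 hinj
  have hsurj : Function.Surjective (lin u v) := by
    intro y
    obtain ⟨x, hx⟩ := hbij.2 (a + y)
    exact ⟨x, add_left_cancel hx⟩
  choose f hf using lin_form u v hdet
  have hfinj : Function.Injective f := by
    intro s t hst
    apply form_zero_inj
    intro z
    obtain ⟨w, rfl⟩ := hsurj z
    rw [hf s, hf t, hst]
  refine ⟨Equiv.ofBijective _ hbij, ?_, ?_, ?_, ?_⟩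
  · change a + lin u v (0, 0) = a
    ext <;> simp [lin]
  · change a + lin u v (1, 0) = b
    ext <;> simp [lin, hu]
  · change a + lin u v (0, 1) = c
    ext <;> simp [lin, hv]
  · refine ⟨Equiv.ofBijective f (Finite.injective_iff_bijective.1 hfinj), fun s x y => ?_⟩
    change form s (a + lin u v x) = form s (a + lin u v y) ↔ form (f s) x = form (f s) y
    rw [form_add, form_add, add_right_inj, ← sub_eq_zero, ← form_sub, ← lin_sub, hf, form_sub,
      sub_eq_zero]

/-- module FRAME -/
theorem frame : FrameStatement := by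
  have key : ∀ (a b c a' b' c' : Pt),
      (∀ s, ¬ (form s a = form s b ∧ form s a = form s c)) →
      (∀ s, ¬ (form s a' = form s b' ∧ form s a' = form s c')) →
      ∃ g : Pt ≃ Pt, g a = a' ∧ g b = b' ∧ g c = c' ∧ Aff g := by
    intro a b c a' b' c' h h'
    obtain ⟨g, h1, h2, h3, h4⟩ := exists_aff a b c h
    obtain ⟨g', h1', h2', h3', h4'⟩ := exists_aff a' b' c' h'
    refine ⟨g.symm.trans g', ?_, ?_, ?_, h4.symm.trans h4'⟩
    · rw [Equiv.trans_apply, ← h1, g.symm_apply_apply, h1']
    · rw [Equiv.trans_apply, ← h2, g.symm_apply_apply, h2']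
    · rw [Equiv.trans_apply, ← h3, g.symm_apply_apply, h3']
  refine ⟨?_, ?_⟩
  · intro a b hab a' b' hab'
    obtain ⟨c, _, _, hc⟩ := exists_noncol a b hab
    obtain ⟨c', _, _, hc'⟩ := exists_noncol a' b' hab'
    obtain ⟨g, h1, h2, _, h4⟩ := key a b c a' b' c' hc hc'
    exact ⟨g, h1, h2, h4⟩
  · intro a b c a' b' c' _ _ _ _ _ _ h h'
    exact key a b c a' b' c' h h'

end StrongArb.H7
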