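import Pool.Agent.Lib.MP_39c2b7_co.Interfaces

/-!
Module GLUE of project SA (MP_39c2b7_co): gluing good maps along a clique with at most three
vertices.
-/

set_option autoImplicit false

namespace StrongArb.H7

open StrongArb
open Classical

/-- acyclicity of a graph whose edges lie in a set -/
theorem acyclic_of_induce {V : Type} (K : SimpleGraph V) (A : Set V)
    (hA : ∀ u v, K.Adj u v → u ∈ A ∧ v ∈ A) (h : (K.induce A).IsAcyclic) : K.IsAcyclic := by
  intro v c hc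
  have hs : ∀ x ∈ c.support, x ∈ A := by
    intro x hx
    rw [SimpleGraph.Walk.mem_support_iff_exists_mem_edges_of_not_nil hc.not_nil] at hx
    obtain ⟨e, he, hxe⟩ := hx
    have he' := c.edges_subset_edgeSet he
    induction e using Sym2.ind with
    | _ a b =>
      rw [SimpleGraph.mem_edgeSet] at he'
      rcases Sym2.mem_iff.1 hxe with rfl | rfl
      · exact (hA _ _ he').1
      · exact (hA _ _ he').2
  refine h (c.induce A hs) ?_
  rw [← SimpleGraph.Walk.isCycle_map_iff_of_injective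
    (f := (SimpleGraph.Embedding.induce A).toHom) Subtype.val_injective,
    SimpleGraph.Walk.map_induce]
  exact hc

theorem no_triangle {V : Type} {K : SimpleGraph V} (h : K.IsAcyclic) {a b c : V}
    (hab : K.Adj a b) (hac : K.Adj a c) (hbc : K.Adj b c) : False :=
  h.cliqueFree le_rfl {a, b, c} (SimpleGraph.is3Clique_triple_iff.2 ⟨hab, hac, hbc⟩)

theorem reach_form {V : Type} {G : SimpleGraph V} {r : V → Pt} {s : Fin 4} {K : SimpleGraph V}
    (hK : K ≤ slopeGraph G r s) {u v : V} (h : K.Reachable u v) :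
    form s (r u) = form s (r v) := by
  obtain ⟨w⟩ := h
  induction w with
  | nil => rfl
  | cons h _ ih => exact (hK h).2.trans ih

theorem reach_start {V : Type} {K : SimpleGraph V} {u v : V} (h : K.Reachable u v) (hne : u ≠ v) :
    ∃ w, K.Adj u w := by
  obtain ⟨w⟩ := h
  cases w with
  | nil => exact absurd rfl hne
  | cons h _ => exact ⟨_, h⟩

theorem glue (hF : FrameStatement) (hR : ReplaceStatement) : GlueStatement := by
  intro V _ G A B hAB hsep hcl hcard ⟨p, hp⟩ ⟨q, hq⟩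
  have hpne : ∀ x y (hx : x ∈ A ∩ B) (hy : y ∈ A ∩ B), x ≠ y →
      p ⟨x, hx.1⟩ ≠ p ⟨y, hy.1⟩ := fun x y hx hy hxy =>
    hp.proper ⟨x, hx.1⟩ ⟨y, hy.1⟩ (hcl hx hy hxy)
  have hqne : ∀ x y (hx : x ∈ A ∩ B) (hy : y ∈ A ∩ B), x ≠ y →
      q ⟨x, hx.2⟩ ≠ q ⟨y, hy.2⟩ := fun x y hx hy hxy =>
    hq.proper ⟨x, hx.2⟩ ⟨y, hy.2⟩ (hcl hx hy hxy)
  -- the affine map
  obtain ⟨g, hg, π, hπ⟩ : ∃ g : Pt ≃ Pt, (∀ x (hx : x ∈ A ∩ B), g (q ⟨x, hx.2⟩) = p ⟨x, hx.1⟩) ∧
      ∃ π : Equiv.Perm (Fin 4), ∀ s x y,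
        form s (g x) = form s (g y) ↔ form (π s) x = form (π s) y := by
    have hSfin : (A ∩ B).Finite := Set.toFinite _
    have h4 : (A ∩ B).ncard = 0 ∨ (A ∩ B).ncard = 1 ∨ (A ∩ B).ncard = 2 ∨
        (A ∩ B).ncard = 3 := by omega
    rcases h4 with h4 | h4 | h4 | h4
    · rw [Set.ncard_eq_zero hSfin] at h4
      refine ⟨Equiv.refl _, fun x hx => ?_, 1, fun s x y => Iff.rfl⟩
      rw [h4] at hx
      exact absurd hx (Set.notMem_empty x)
    · rw [Set.ncard_eq_one] at h4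
      obtain ⟨a, ha⟩ := h4
      have haS : a ∈ A ∩ B := by rw [ha]; rfl
      have h5 : ∀ z : Pt, ∃ w : Pt, z ≠ w := by decide
      obtain ⟨w, hw⟩ := h5 (q ⟨a, haS.2⟩)
      obtain ⟨w', hw'⟩ := h5 (p ⟨a, haS.1⟩)
      obtain ⟨g, h6, _, π, hπ⟩ := hF.1 _ w hw _ w' hw'
      refine ⟨g, fun x hx => ?_, π, hπ⟩
      have hx' : x = a := by rw [ha] at hx; exact hx
      subst hx'
      exact h6
    · rw [Set.ncard_eq_two] at h4
      obtain ⟨a, b, hab, hS⟩ := h4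
      have haS : a ∈ A ∩ B := by rw [hS]; exact Or.inl rfl
      have hbS : b ∈ A ∩ B := by rw [hS]; exact Or.inr rfl
      obtain ⟨g, h6, h7, π, hπ⟩ := hF.1 _ _ (hqne a b haS hbS hab) _ _ (hpne a b haS hbS hab)
      refine ⟨g, fun x hx => ?_, π, hπ⟩
      have hx' : x = a ∨ x = b := by rw [hS] at hx; exact hx
      rcases hx' with rfl | rfl
      · exact h6
      · exact h7
    · rw [Set.ncard_eq_three] at h4
      obtain ⟨a, b, c, hab, hac, hbc, hS⟩ := h4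
      have haS : a ∈ A ∩ B := by rw [hS]; exact Or.inl rfl
      have hbS : b ∈ A ∩ B := by rw [hS]; exact Or.inr (Or.inl rfl)
      have hcS : c ∈ A ∩ B := by rw [hS]; exact Or.inr (Or.inr rfl)
      have hq3 : ∀ s, ¬ (form s (q ⟨a, haS.2⟩) = form s (q ⟨b, hbS.2⟩) ∧
          form s (q ⟨a, haS.2⟩) = form s (q ⟨c, hcS.2⟩)) := by
        intro s hs
        exact no_triangle (hq.forest s) (a := ⟨a, haS.2⟩) (b := ⟨b, hbS.2⟩) (c := ⟨c, hcS.2⟩)
          ⟨hcl haS hbS hab, hs.1⟩ ⟨hcl haS hcS hac, hs.2⟩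
          ⟨hcl hbS hcS hbc, hs.1.symm.trans hs.2⟩
      have hp3 : ∀ s, ¬ (form s (p ⟨a, haS.1⟩) = form s (p ⟨b, hbS.1⟩) ∧
          form s (p ⟨a, haS.1⟩) = form s (p ⟨c, hcS.1⟩)) := by
        intro s hs
        exact no_triangle (hp.forest s) (a := ⟨a, haS.1⟩) (b := ⟨b, hbS.1⟩) (c := ⟨c, hcS.1⟩)
          ⟨hcl haS hbS hab, hs.1⟩ ⟨hcl haS hcS hac, hs.2⟩
          ⟨hcl hbS hcS hbc, hs.1.symm.trans hs.2⟩
      obtain ⟨g, h6, h7, h8, π, hπ⟩ := hF.2 _ _ _ _ _ _ (hqne a b haS hbS hab)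
        (hqne a c haS hcS hac) (hqne b c hbS hcS hbc) (hpne a b haS hbS hab)
        (hpne a c haS hcS hac) (hpne b c hbS hcS hbc) hq3 hp3
      refine ⟨g, fun x hx => ?_, π, hπ⟩
      have hx' : x = a ∨ x = b ∨ x = c := by rw [hS] at hx; exact hx
      rcases hx' with rfl | rfl | rfl
      · exact h6
      · exact h7
      · exact h8
  have hB : ∀ v, v ∉ A → v ∈ B := by
    intro v hv
    have : v ∈ A ∪ B := by rw [hAB]; exact Set.mem_univ v
    exact this.resolve_left hv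
  -- the glued map
  let r : V → Pt := fun v => if h : v ∈ A then p ⟨v, h⟩ else g (q ⟨v, hB v h⟩)
  have hrA : ∀ v (h : v ∈ A), r v = p ⟨v, h⟩ := fun v h => dif_pos h
  have hrB : ∀ v (h : v ∈ B), r v = g (q ⟨v, h⟩) := by
    intro v h
    by_cases hA : v ∈ A
    · rw [hrA v hA, ← hg v ⟨hA, h⟩]
    · exact dif_neg hA
  have hedge : ∀ u v, G.Adj u v → (u ∈ A ∧ v ∈ A) ∨ (u ∈ B ∧ v ∈ B) := by
    intro u v huv
    by_cases hu : u ∈ A
    · by_cases hv : v ∈ A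
      · exact Or.inl ⟨hu, hv⟩
      · right
        by_contra hcon
        have huB : u ∉ B := fun h => hcon ⟨h, hB v hv⟩
        exact hsep u ⟨hu, huB⟩ v ⟨hB v hv, hv⟩ huv
    · by_cases hv : v ∈ A
      · right
        by_contra hcon
        have hvB : v ∉ B := fun h => hcon ⟨hB u hu, h⟩
        exact hsep v ⟨hv, hvB⟩ u ⟨hB u hu, hu⟩ huv.symm
      · exact Or.inr ⟨hB u hu, hB v hv⟩
  refine ⟨r, ⟨?_, ?_⟩⟩
  · intro u v huv
    rcases hedge u v huv with ⟨hu, hv⟩ | ⟨hu, hv⟩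
    · rw [hrA u hu, hrA v hv]
      exact hp.proper ⟨u, hu⟩ ⟨v, hv⟩ huv
    · rw [hrB u hu, hrB v hv]
      exact fun h => hq.proper ⟨u, hu⟩ ⟨v, hv⟩ huv (g.injective h)
  · intro s
    set H := slopeGraph G r s with hH
    let AK : SimpleGraph V :=
      { Adj := fun u v => H.Adj u v ∧ u ∈ A ∧ v ∈ A
        symm := ⟨fun _ _ h => ⟨h.1.symm, h.2.2, h.2.1⟩⟩
        loopless := ⟨fun _ h => H.loopless.irrefl _ h.1⟩ }
    let BB : SimpleGraph V :=
      { Adj := fun u v => H.Adj u v ∧ u ∈ B ∧ v ∈ B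
        symm := ⟨fun _ _ h => ⟨h.1.symm, h.2.2, h.2.1⟩⟩
        loopless := ⟨fun _ h => H.loopless.irrefl _ h.1⟩ }
    let BQ : SimpleGraph V :=
      { Adj := fun u v => H.Adj u v ∧ u ∈ A ∩ B ∧ v ∈ A ∩ B
        symm := ⟨fun _ _ h => ⟨h.1.symm, h.2.2, h.2.1⟩⟩
        loopless := ⟨fun _ h => H.loopless.irrefl _ h.1⟩ }
    have hAK : AK ≤ H := fun u v h => h.1
    have hBQ : BQ ≤ BB := fun u v h => ⟨h.1, h.2.1.2, h.2.2.2⟩
    have hAKac : AK.IsAcyclic := by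
      apply acyclic_of_induce AK A (fun u v h => h.2)
      refine (hp.forest s).anti ?_
      rintro ⟨u, hu⟩ ⟨v, hv⟩ h
      have h' : AK.Adj u v := h
      refine ⟨h'.1.1, ?_⟩
      have h2 := h'.1.2
      rwa [hrA u hu, hrA v hv] at h2
    have hBBac : BB.IsAcyclic := by
      apply acyclic_of_induce BB B (fun u v h => h.2)
      refine (hq.forest (π s)).anti ?_
      rintro ⟨u, hu⟩ ⟨v, hv⟩ h
      have h' : BB.Adj u v := h
      refine ⟨h'.1.1, ?_⟩
      have h2 := h'.1.2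
      rwa [hrB u hu, hrB v hv, hπ] at h2
    have hends : ∀ u v, H.Adj u v → ¬ AK.Adj u v → u ∈ B ∧ v ∈ B := by
      intro u v h h'
      rcases hedge u v h.1 with h2 | h2
      · exact absurd ⟨h, h2⟩ h'
      · exact h2
    refine hR V V H AK BB BQ id hAK hBQ hBBac hAKac ?_ ?_ ?_
    · intro u v h h'
      refine ⟨⟨h, hends u v h h'⟩, fun h2 => h' ⟨h, h2.2.1.1, h2.2.2.1⟩⟩
    · intro u v u' v' _ _ _ _ h
      exact h
    · rintro u v huv ⟨w, hw1, hw2⟩ ⟨w', hw1', hw2'⟩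
      rcases eq_or_ne u v with rfl | hne
      · exact SimpleGraph.Reachable.refl _
      · obtain ⟨a, ha⟩ := reach_start huv hne
        obtain ⟨b, hb⟩ := reach_start huv.symm hne.symm
        have huS : u ∈ A ∩ B := ⟨ha.2.1, (hends u w hw1 hw2).1⟩
        have hvS : v ∈ A ∩ B := ⟨hb.2.1, (hends v w' hw1' hw2').1⟩
        have h1 : BQ.Adj u v := ⟨⟨hcl huS hvS hne, reach_form hAK huv⟩, huS, hvS⟩
        exact h1.reachable

end StrongArb.H7
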